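import Pool.Agent.W792.LL.Stm
import Pool.Agent.W628.CG.Osc

/-! LL-OSC (helper792): uniform dispersive decay. -/

set_option autoImplicit false

namespace Pool.Agent.W688.LL.Osc

open MeasureTheory intervalIntegral Set

/-- the phase -/
noncomputable def ps (M : ℝ) (n : ℤ) (t : ℝ) : ℝ :=
  2 * Real.pi * n * t + M * (2 - 2 * Real.cos (2 * Real.pi * t))

noncomputable def ph (M : ℝ) (n : ℤ) (t : ℝ) : ℝ :=
  2 * Real.pi * n + 4 * Real.pi * M * Real.sin (2 * Real.pi * t)

noncomputable def ch (M : ℝ) (t : ℝ) : ℝ := 8 * Real.pi ^ 2 * M * Real.cos (2 * Real.pi * t)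

lemma d1 (M : ℝ) (n : ℤ) (t : ℝ) : HasDerivAt (ps M n) (ph M n t) t := by
  unfold ps ph
  have e1 : HasDerivAt (fun t : ℝ => 2 * Real.pi * n * t) (2 * Real.pi * n * 1) t :=
    (hasDerivAt_id t).const_mul _
  have e2 : HasDerivAt (fun t : ℝ => 2 * Real.pi * t) (2 * Real.pi * 1) t :=
    (hasDerivAt_id t).const_mul _
  have e3 := (((e2.cos).const_mul 2).const_sub 2).const_mul M
  refine (e1.add e3).congr_deriv ?_
  ring

lemma d2 (M : ℝ) (n : ℤ) (t : ℝ) : HasDerivAt (ph M n) (ch M t) t := by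
  unfold ph ch
  have e2 : HasDerivAt (fun t : ℝ => 2 * Real.pi * t) (2 * Real.pi * 1) t :=
    (hasDerivAt_id t).const_mul _
  have e3 := ((e2.sin).const_mul (4 * Real.pi * M)).const_add (2 * Real.pi * n)
  refine e3.congr_deriv ?_
  ring

lemma cch (M : ℝ) : Continuous (ch M) := by
  unfold ch
  fun_prop

lemma cps (M : ℝ) (n : ℤ) : Continuous (fun t => Complex.exp (Complex.I * (ps M n t : ℂ))) := by
  unfold ps
  fun_prop

/-- a piece where the cosine has a constant sign -/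
lemma piece (M : ℝ) (n : ℤ) {c d τ : ℝ} (hcd : c ≤ d) (hτ : 0 < τ) (hM : M ≠ 0)
    (hc : (∀ t ∈ Icc c d, τ ≤ Real.cos (2 * Real.pi * t)) ∨
      (∀ t ∈ Icc c d, Real.cos (2 * Real.pi * t) ≤ -τ)) :
    ‖∫ t in c..d, Complex.exp (Complex.I * (ps M n t : ℂ))‖ ≤ 8 / Real.sqrt (|M| * τ) := by
  have hM0 : 0 < |M| := abs_pos.mpr hM
  have hκ : 0 < |M| * τ := by positivity
  have hpi : 1 ≤ 8 * Real.pi ^ 2 := by
    have := Real.pi_gt_three
    nlinarith
  have key : (∀ t ∈ Icc c d, |M| * τ ≤ ch M t) ∨ (∀ t ∈ Icc c d, ch M t ≤ -(|M| * τ)) := by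
    have e1 : |M| * τ ≤ 8 * Real.pi ^ 2 * (|M| * τ) := by nlinarith
    rcases lt_or_gt_of_ne hM with hneg | hpos
    · rw [abs_of_neg hneg] at *
      rcases hc with h | h
      · right
        intro t ht
        have := h t ht
        unfold ch
        have e2 : -M * τ ≤ -M * Real.cos (2 * Real.pi * t) :=
          mul_le_mul_of_nonneg_left this (by linarith)
        have e3 := mul_le_mul_of_nonneg_left e2 (show (0 : ℝ) ≤ 8 * Real.pi ^ 2 by positivity)
        linarith
      · left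
        intro t ht
        have := h t ht
        unfold ch
        have e2 : -M * τ ≤ -M * -Real.cos (2 * Real.pi * t) :=
          mul_le_mul_of_nonneg_left (by linarith) (by linarith)
        have e3 := mul_le_mul_of_nonneg_left e2 (show (0 : ℝ) ≤ 8 * Real.pi ^ 2 by positivity)
        linarith
    · rw [abs_of_pos hpos] at *
      rcases hc with h | h
      · left
        intro t ht
        have := h t ht
        unfold ch
        have e2 : M * τ ≤ M * Real.cos (2 * Real.pi * t) :=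
          mul_le_mul_of_nonneg_left this (by linarith)
        have e3 := mul_le_mul_of_nonneg_left e2 (show (0 : ℝ) ≤ 8 * Real.pi ^ 2 by positivity)
        linarith
      · right
        intro t ht
        have := h t ht
        unfold ch
        have e2 : M * τ ≤ M * -Real.cos (2 * Real.pi * t) :=
          mul_le_mul_of_nonneg_left (by linarith) (by linarith)
        have e3 := mul_le_mul_of_nonneg_left e2 (show (0 : ℝ) ≤ 8 * Real.pi ^ 2 by positivity)
        linarith
  rcases key with h | h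
  · exact W628.CG.vdc hcd hκ (ps M n) (ph M n) (ch M) (fun t _ => d1 M n t) (fun t _ => d2 M n t)
      (cch M).continuousOn h
  · exact W628.CG.vdc_neg hcd hκ (ps M n) (ph M n) (ch M) (fun t _ => d1 M n t)
      (fun t _ => d2 M n t) (cch M).continuousOn h

/-- the cosine away from its zeros -/
lemma cos_low {τ t : ℝ} (hτ : 0 ≤ τ) (hτ1 : τ ≤ 1 / 4) (h : |t| ≤ 1 / 4 - τ) :
    τ ≤ Real.cos (2 * Real.pi * t) := by
  have hpi := Real.pi_pos
  rw [← Real.cos_abs, abs_mul, abs_of_pos (by positivity : (0 : ℝ) < 2 * Real.pi)]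
  have e1 : Real.cos (2 * Real.pi * (1 / 4 - τ)) ≤ Real.cos (2 * Real.pi * |t|) := by
    apply Real.cos_le_cos_of_nonneg_of_le_pi (by positivity) (by nlinarith)
    exact mul_le_mul_of_nonneg_left h (by positivity)
  have e2 : Real.cos (2 * Real.pi * (1 / 4 - τ)) = Real.sin (2 * Real.pi * τ) := by
    have : 2 * Real.pi * (1 / 4 - τ) = Real.pi / 2 - 2 * Real.pi * τ := by ring
    rw [this, Real.cos_pi_div_two_sub]
  have e3 := Real.mul_le_sin (x := 2 * Real.pi * τ) (by positivity) (by nlinarith)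
  have e4 : 2 / Real.pi * (2 * Real.pi * τ) = 4 * τ := by field_simp; ring
  rw [e4] at e3
  linarith

lemma one_dim {δ : ℝ} (hδ : 0 < δ) (hδ1 : δ ≤ 1) (M : ℝ) (hM : (32 / δ) ^ 2 * (8 / δ) ≤ |M|)
    (n : ℤ) :
    ‖∫ t in (-(1 / 4 : ℝ))..(-(1 / 4) + 1), Complex.exp (Complex.I * (ps M n t : ℂ))‖ ≤ δ := by
  obtain ⟨τ, hτ⟩ : ∃ τ, τ = δ / 8 := ⟨_, rfl⟩
  have hτ0 : 0 < τ := by rw [hτ]; positivity
  have hτ1 : τ ≤ 1 / 8 := by rw [hτ]; linarith
  have hM0 : M ≠ 0 := by
    intro h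
    rw [h, abs_zero] at hM
    have : 0 < (32 / δ) ^ 2 * (8 / δ) := by positivity
    linarith
  have hκ : 8 / Real.sqrt (|M| * τ) ≤ δ / 4 := by
    have h1 : (32 / δ) ^ 2 ≤ |M| * τ := by
      have h2 := mul_le_mul_of_nonneg_right hM hτ0.le
      have h3 : (32 / δ) ^ 2 * (8 / δ) * τ = (32 / δ) ^ 2 := by
        rw [hτ]; field_simp
      linarith
    have h2 : 32 / δ ≤ Real.sqrt (|M| * τ) := Real.le_sqrt_of_sq_le h1
    have h3 : 0 < 32 / δ := by positivity
    rw [div_le_iff₀ (lt_of_lt_of_le h3 h2)]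
    calc (8 : ℝ) = δ / 4 * (32 / δ) := by field_simp; norm_num
      _ ≤ δ / 4 * Real.sqrt (|M| * τ) := mul_le_mul_of_nonneg_left h2 (by positivity)
  have hi : ∀ c d : ℝ, IntervalIntegrable (fun t => Complex.exp (Complex.I * (ps M n t : ℂ)))
      volume c d := fun c d => (cps M n).intervalIntegrable c d
  have s1 := integral_add_adjacent_intervals (hi (-(1 / 4)) (-(1 / 4) + τ))
    (hi (-(1 / 4) + τ) (1 / 4 - τ))
  have s2 := integral_add_adjacent_intervals (hi (-(1 / 4)) (1 / 4 - τ))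
    (hi (1 / 4 - τ) (1 / 4 + τ))
  have s3 := integral_add_adjacent_intervals (hi (-(1 / 4)) (1 / 4 + τ))
    (hi (1 / 4 + τ) (3 / 4 - τ))
  have s4 := integral_add_adjacent_intervals (hi (-(1 / 4)) (3 / 4 - τ))
    (hi (3 / 4 - τ) (-(1 / 4) + 1))
  have b1 := W628.CG.crude (show -(1 / 4 : ℝ) ≤ -(1 / 4) + τ by linarith) (ps M n)
  have b3 := W628.CG.crude (show (1 / 4 - τ : ℝ) ≤ 1 / 4 + τ by linarith) (ps M n)
  have b5 := W628.CG.crude (show (3 / 4 - τ : ℝ) ≤ -(1 / 4) + 1 by linarith) (ps M n)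
  have b2 := piece M n (c := -(1 / 4) + τ) (d := 1 / 4 - τ) (by linarith) hτ0 hM0 (by
    left
    intro t ht
    apply cos_low hτ0.le (by linarith)
    rw [abs_le]
    constructor <;> linarith [ht.1, ht.2])
  have b4 := piece M n (c := 1 / 4 + τ) (d := 3 / 4 - τ) (by linarith) hτ0 hM0 (by
    right
    intro t ht
    have h1 := cos_low (τ := τ) (t := t - 1 / 2) hτ0.le (by linarith) (by
      rw [abs_le]
      constructor <;> linarith [ht.1, ht.2])
    have h2 : 2 * Real.pi * (t - 1 / 2) = 2 * Real.pi * t - Real.pi := by ring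
    rw [h2, Real.cos_sub_pi] at h1
    linarith)
  rw [← s4, ← s3, ← s2, ← s1]
  refine (norm_add_le _ _).trans ?_
  refine (add_le_add_left ((norm_add_le _ _).trans (add_le_add_left ((norm_add_le _ _).trans
    (add_le_add_left (norm_add_le _ _) _)) _)) _).trans ?_
  have : 4 * τ = δ / 2 := by rw [hτ]; ring
  linarith

lemma circ (M : ℝ) (n : ℤ) :
    ∫ t : UnitAddCircle, fourier n t * Complex.exp (Complex.I * M *
      ((2 - 2 * (fourier 1 t).re : ℝ) : ℂ)) ∂AddCircle.haarAddCircle =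
    ∫ t in (-(1 / 4 : ℝ))..(-(1 / 4) + 1), Complex.exp (Complex.I * (ps M n t : ℂ)) := by
  have h1 : (volume : Measure UnitAddCircle) = AddCircle.haarAddCircle := by
    rw [AddCircle.volume_eq_smul_haarAddCircle, ENNReal.ofReal_one, one_smul]
  rw [← h1, ← UnitAddCircle.intervalIntegral_preimage (-(1 / 4))]
  apply intervalIntegral.integral_congr
  intro t _
  have h2 : ((fourier 1 (t : UnitAddCircle) : ℂ)).re = Real.cos (2 * Real.pi * t) := by
    rw [fourier_coe_apply]
    have : 2 * (Real.pi : ℂ) * Complex.I * ((1 : ℤ) : ℂ) * (t : ℂ) / ((1 : ℝ) : ℂ) =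
        ((2 * Real.pi * t : ℝ) : ℂ) * Complex.I := by
      push_cast
      ring
    rw [this, Complex.exp_ofReal_mul_I_re]
  change fourier n (t : UnitAddCircle) * Complex.exp (Complex.I * M *
      ((2 - 2 * (fourier 1 (t : UnitAddCircle)).re : ℝ) : ℂ)) = Complex.exp (Complex.I * (ps M n t : ℂ))
  rw [h2, fourier_coe_apply, ← Complex.exp_add]
  congr 1
  unfold ps
  push_cast
  ring

theorem main : Pool.Agent.W792.LL.S_OSC := by
  intro δ hδ
  obtain ⟨ε, hε⟩ : ∃ ε, ε = min δ 1 := ⟨_, rfl⟩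
  have hε0 : 0 < ε := by rw [hε]; exact lt_min hδ one_pos
  have hε1 : ε ≤ 1 := by rw [hε]; exact min_le_right _ _
  have hεδ : ε ≤ δ := by rw [hε]; exact min_le_left _ _
  refine ⟨(32 / ε) ^ 2 * (8 / ε), fun M hM d hd x => ?_⟩
  have h1 : UnitAddTorus.mFourierCoeff (fun k : UnitAddTorus (Fin d) =>
      Complex.exp (Complex.I * M * Pool.Agent.W792.LL.lap d k)) x =
      ∏ i : Fin d, ∫ t : UnitAddCircle, fourier (-x i) t * Complex.exp (Complex.I * M *
        ((2 - 2 * (fourier 1 t).re : ℝ) : ℂ)) ∂AddCircle.haarAddCircle := by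
    rw [← integral_fintype_prod_eq_prod (μ := fun _ : Fin d => AddCircle.haarAddCircle)]
    unfold UnitAddTorus.mFourierCoeff
    refine integral_congr_ae (Filter.Eventually.of_forall fun k => ?_)
    change (∏ i : Fin d, fourier ((-x) i) (k i)) * Complex.exp (Complex.I * M *
      ((∑ i, (2 - 2 * (fourier 1 (k i)).re) : ℝ) : ℂ)) =
      ∏ i : Fin d, (fourier (-x i) (k i) * Complex.exp (Complex.I * M *
        ((2 - 2 * (fourier 1 (k i)).re : ℝ) : ℂ)))
    rw [Finset.prod_mul_distrib, ← Complex.exp_sum, Complex.ofReal_sum, Finset.mul_sum]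
    rfl
  rw [h1, norm_prod]
  have h2 : ∀ i : Fin d, ‖∫ t : UnitAddCircle, fourier (-x i) t * Complex.exp (Complex.I * M *
        ((2 - 2 * (fourier 1 t).re : ℝ) : ℂ)) ∂AddCircle.haarAddCircle‖ ≤ ε := by
    intro i
    rw [circ]
    exact one_dim hε0 hε1 M hM _
  calc ∏ i : Fin d, ‖∫ t : UnitAddCircle, fourier (-x i) t * Complex.exp (Complex.I * M *
        ((2 - 2 * (fourier 1 t).re : ℝ) : ℂ)) ∂AddCircle.haarAddCircle‖
      ≤ ∏ _i : Fin d, ε := Finset.prod_le_prod (fun _ _ => norm_nonneg _) fun i _ => h2 i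
    _ = ε ^ d := by simp
    _ ≤ ε ^ 1 := pow_le_pow_of_le_one hε0.le hε1 hd
    _ = ε := pow_one ε
    _ ≤ δ := hεδ

end Pool.Agent.W688.LL.Osc
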